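import Pool.Agent.Helper35_XQ.Stmt

/-!
Squad XQ, Part A2, module GI_KBD (helper50): bounds of the kernel near the cut.
-/

set_option autoImplicit false

namespace Pool.Agent.XQ.GI

open MeasureTheory Complex Filter Topology Pool.Agent.H62T Pool.Agent.H60K
open scoped ENNReal NNReal

namespace Kbd

theorem rf_re (u : Fin 3 → ℂ) (h : Fin 3 → ℝ) (i : Fin 3) (y : ℂ) :
    (rf u h i y).re = y.re - 2 * (ip (u i) y - h i) * (u i).re := by
  simp [rf]

theorem rf_im (u : Fin 3 → ℂ) (h : Fin 3 → ℝ) (i : Fin 3) (y : ℂ) :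
    (rf u h i y).im = y.im - 2 * (ip (u i) y - h i) * (u i).im := by
  simp [rf]

theorem rfl1_re (n : ℂ) (k : ℝ) (y : ℂ) :
    (rfl1 n k y).re = y.re - 2 * (ip n y - k) * n.re := by
  simp [rfl1]

theorem rfl1_im (n : ℂ) (k : ℝ) (y : ℂ) :
    (rfl1 n k y).im = y.im - 2 * (ip n y - k) * n.im := by
  simp [rfl1]

theorem uI0 (α : ℝ) : uI α 0 = ⟨-Real.sin α, Real.cos α⟩ := by simp [uI]
theorem uI1 (α : ℝ) : uI α 1 = ⟨0, -1⟩ := by simp [uI]
theorem uI2 (α : ℝ) : uI α 2 = ⟨Real.sin α, Real.cos α⟩ := by simp [uI]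
theorem hI0 (α b : ℝ) : hI α b 0 = b / 2 * Real.sin α := by simp [hI]
theorem hI1 (α b : ℝ) : hI α b 1 = 0 := by simp [hI]
theorem hI2 (α b : ℝ) : hI α b 2 = b / 2 * Real.sin α := by simp [hI]

theorem ip0 (α : ℝ) (y : ℂ) : ip (uI α 0) y = -Real.sin α * y.re + Real.cos α * y.im := by
  rw [uI0]; rfl
theorem ip1 (α : ℝ) (y : ℂ) : ip (uI α 1) y = -y.im := by
  rw [uI1]; simp [ip]
theorem ip2 (α : ℝ) (y : ℂ) : ip (uI α 2) y = Real.sin α * y.re + Real.cos α * y.im := by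
  rw [uI2]; rfl

theorem norm_uI (α : ℝ) (s : Fin 3) : ‖uI α s‖ = 1 := by
  have h : ∀ z : ℂ, z.re ^ 2 + z.im ^ 2 = 1 → ‖z‖ = 1 := by
    intro z hz
    rw [Complex.norm_eq_sqrt_sq_add_sq, hz, Real.sqrt_one]
  have hsc := Real.sin_sq_add_cos_sq α
  fin_cases s
  · apply h
    change (uI α 0).re ^ 2 + (uI α 0).im ^ 2 = 1
    rw [uI0]
    simp only []
    linarith
  · apply h
    change (uI α 1).re ^ 2 + (uI α 1).im ^ 2 = 1
    rw [uI1]
    norm_num
  · apply h
    change (uI α 2).re ^ 2 + (uI α 2).im ^ 2 = 1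
    rw [uI2]
    simp only []
    linarith

/-- the reflection in the line `2` -/
theorem r2 (α b : ℝ) (x : ℂ) : rf (uI α) (hI α b) 2 x =
    ⟨x.re - 2 * (Real.sin α * x.re + Real.cos α * x.im - b / 2 * Real.sin α) * Real.sin α,
      x.im - 2 * (Real.sin α * x.re + Real.cos α * x.im - b / 2 * Real.sin α) * Real.cos α⟩ := by
  apply Complex.ext
  · rw [rf_re, ip2, hI2, uI2]
  · rw [rf_im, ip2, hI2, uI2]

theorem r1 (α b : ℝ) (x : ℂ) : rf (uI α) (hI α b) 1 x = ⟨x.re, -x.im⟩ := by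
  apply Complex.ext
  · rw [rf_re, ip1, hI1, uI1]
    simp
  · rw [rf_im, ip1, hI1, uI1]
    simp only []
    ring

theorem r0 (α b : ℝ) (x : ℂ) : rf (uI α) (hI α b) 0 x =
    ⟨x.re + 2 * (-Real.sin α * x.re + Real.cos α * x.im - b / 2 * Real.sin α) * Real.sin α,
      x.im - 2 * (-Real.sin α * x.re + Real.cos α * x.im - b / 2 * Real.sin α) * Real.cos α⟩ := by
  apply Complex.ext
  · rw [rf_re, ip0, hI0, uI0]
    simp only []
    ring
  · rw [rf_im, ip0, hI0, uI0]

/-- the glide reflection -/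
theorem r012 (α b : ℝ) (x : ℂ) : rf (uI α) (hI α b) 0 (rf (uI α) (hI α b) 1
    (rf (uI α) (hI α b) 2 x)) = g0 α b x := by
  have hsc := Real.sin_sq_add_cos_sq α
  rw [r2, r1, r0]
  unfold g0 lo
  apply Complex.ext
  · simp only []
    linear_combination (4 * (Real.sin α * x.re + Real.cos α * x.im - b / 2 * Real.sin α) *
      Real.sin α) * hsc
  · simp only []
    linear_combination (-4 * (Real.sin α * x.re + Real.cos α * x.im - b / 2 * Real.sin α) *
      Real.cos α) * hsc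

theorem f012 (α b : ℝ) (x : ℂ) (h2 : ip (uI α 2) x < hI α b 2)
    (h1 : ip (uI α 1) (rf (uI α) (hI α b) 2 x) < hI α b 1)
    (h0 : ip (uI α 0) (rf (uI α) (hI α b) 1 (rf (uI α) (hI α b) 2 x)) < hI α b 0) :
    fo (uI α) (hI α b) w012.1 x = g0 α b x := by
  have e : fo (uI α) (hI α b) w012.1 x =
      fo1 (uI α) (hI α b) 0 (fo1 (uI α) (hI α b) 1 (fo1 (uI α) (hI α b) 2 x)) := rfl
  have e2 : fo1 (uI α) (hI α b) 2 x = rf (uI α) (hI α b) 2 x := if_neg (not_le.mpr h2)
  have e1 : fo1 (uI α) (hI α b) 1 (rf (uI α) (hI α b) 2 x) =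
      rf (uI α) (hI α b) 1 (rf (uI α) (hI α b) 2 x) := if_neg (not_le.mpr h1)
  have e0 : fo1 (uI α) (hI α b) 0 (rf (uI α) (hI α b) 1 (rf (uI α) (hI α b) 2 x)) =
      rf (uI α) (hI α b) 0 (rf (uI α) (hI α b) 1 (rf (uI α) (hI α b) 2 x)) :=
    if_neg (not_le.mpr h0)
  rw [e, e2, e1, e0, r012]

theorem f02 (α b : ℝ) (x : ℂ) (h2 : ip (uI α 2) x < hI α b 2)
    (h0 : ip (uI α 0) (rf (uI α) (hI α b) 2 x) < hI α b 0) :
    fo (uI α) (hI α b) [0, 2] x = rf (uI α) (hI α b) 0 (rf (uI α) (hI α b) 2 x) := by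
  have e : fo (uI α) (hI α b) [0, 2] x =
      fo1 (uI α) (hI α b) 0 (fo1 (uI α) (hI α b) 2 x) := rfl
  have e2 : fo1 (uI α) (hI α b) 2 x = rf (uI α) (hI α b) 2 x := if_neg (not_le.mpr h2)
  have e0 : fo1 (uI α) (hI α b) 0 (rf (uI α) (hI α b) 2 x) =
      rf (uI α) (hI α b) 0 (rf (uI α) (hI α b) 2 x) := if_neg (not_le.mpr h0)
  rw [e, e2, e0]

theorem f1 (α b : ℝ) (x : ℂ) (hq : 0 ≤ x.im) :
    fo (uI α) (hI α b) [1] x = rf (uI α) (hI α b) 1 x := by
  have e : fo (uI α) (hI α b) [1] x = fo1 (uI α) (hI α b) 1 x := rfl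
  rw [e]
  unfold fo1
  split_ifs with h
  · rw [hI1, ip1] at h
    rw [r1]
    apply Complex.ext
    · rfl
    · simp only []
      linarith
  · rfl

/-- reflection in the vertex `1 2` -/
theorem m2 (α b : ℝ) (x : ℂ) : rfl1 ⟨Real.cos α, -Real.sin α⟩ (b / 2 * Real.cos α)
    (rf (uI α) (hI α b) 2 x) = b - x := by
  have hsc := Real.sin_sq_add_cos_sq α
  have e1 : ∀ y : ℂ, ip ⟨Real.cos α, -Real.sin α⟩ y = Real.cos α * y.re + -Real.sin α * y.im :=
    fun _ => rfl
  have e2 : ip ⟨Real.cos α, -Real.sin α⟩ (rf (uI α) (hI α b) 2 x) =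
      Real.cos α * x.re - Real.sin α * x.im := by
    rw [e1, r2]
    simp only []
    ring
  apply Complex.ext
  · rw [rfl1_re, e2, r2]
    simp only [Complex.sub_re, Complex.ofReal_re]
    linear_combination (-(2 * x.re - b)) * hsc
  · rw [rfl1_im, e2, r2]
    simp only [Complex.sub_im, Complex.ofReal_im]
    linear_combination (-2 * x.im) * hsc

theorem m1 (α b : ℝ) (x : ℂ) : rfl1 (-1) (b / 2) (rf (uI α) (hI α b) 1
    (rf (uI α) (hI α b) 2 x)) = g1 α b x := by
  have e1 : ∀ y : ℂ, ip (-1) y = -y.re := fun y => by simp [ip]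
  unfold g1
  apply Complex.ext
  · rw [rfl1_re, e1, r1]
    simp
    ring
  · rw [rfl1_im, e1, r1]
    simp


theorem Gnn {s : ℝ} (hs : 0 < s) (z : ℂ) : 0 ≤ G s z := by
  unfold G
  positivity


theorem bd {s d p : ℝ} (hs : 0 < s) (hs1 : s ≤ 1) (hp : |p| < d) : s * p < d ∧ -d < s * p := by
  have h1 := (abs_lt.mp hp).1
  have h2 := (abs_lt.mp hp).2
  constructor
  · rcases le_or_gt 0 p with h | h
    · nlinarith
    · nlinarith [mul_neg_of_pos_of_neg hs h]
  · rcases le_or_gt 0 p with h | h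
    · nlinarith [mul_nonneg hs.le h]
    · nlinarith

theorem cone1 {s c b y1 y2 : ℝ} (hs : 0 < s) (hc : 0 < c)
    (h0 : b / 2 * s ≤ -s * y1 + c * y2) (h1 : 0 ≤ -y2) : b / 2 ≤ -y1 := by
  have h : c * y2 ≤ 0 := mul_nonpos_of_nonneg_of_nonpos hc.le (by linarith)
  have h2 : s * (b / 2) ≤ s * (-y1) := by linarith
  exact le_of_mul_le_mul_left h2 hs

theorem cone2 {s c b y1 y2 : ℝ} (hs : 0 < s) (hc : 0 < c)
    (h0 : b / 2 * s ≤ s * y1 + c * y2) (h1 : 0 ≤ -y2) : b / 2 * c ≤ c * y1 + -s * y2 := by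
  have h : c * y2 ≤ 0 := mul_nonpos_of_nonneg_of_nonpos hc.le (by linarith)
  have h2 : s * (b / 2) ≤ s * y1 := by linarith
  have h3 : b / 2 ≤ y1 := le_of_mul_le_mul_left h2 hs
  have h4 : s * y2 ≤ 0 := mul_nonpos_of_nonneg_of_nonpos hs.le (by linarith)
  have h5 : c * (b / 2) ≤ c * y1 := mul_le_mul_of_nonneg_left h3 hc.le
  linarith

theorem refl0 {s c b p q : ℝ} (hsc : s ^ 2 + c ^ 2 = 1) :
    -s * (p - 2 * (s * p + c * q - b / 2 * s) * s)
      + c * -(q - 2 * (s * p + c * q - b / 2 * s) * c)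
      = (s * p + c * q - b / 2 * s) - b / 2 * s := by
  linear_combination (2 * (s * p + c * q - b / 2 * s)) * hsc

theorem refl02 {s c b p q m : ℝ} (hsc : s ^ 2 + c ^ 2 = 1) (hm : m = 1 - 2 * c ^ 2) :
    -s * (p - 2 * (s * p + c * q - b / 2 * s) * s)
      + c * (q - 2 * (s * p + c * q - b / 2 * s) * c)
      = -s * p + c * q + 2 * (s * p + c * q - b / 2 * s) * m := by
  rw [hm]
  linear_combination (2 * (s * p + c * q - b / 2 * s)) * hsc

theorem nrm {s c b p q m A B : ℝ} (hsc : s ^ 2 + c ^ 2 = 1) (hm : m = 1 - 2 * c ^ 2)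
    (hA : A = s * p + c * q - b / 2 * s) (hB : B = -s * p + c * q + 2 * A * m - b / 2 * s) :
    16 * s ^ 2 * (b / 2 * s - c * q) ^ 2 ≤ (2 * s * (A - B)) ^ 2 + (2 * c * (A + B)) ^ 2 := by
  have h : (2 * s * (A - B)) ^ 2 + (2 * c * (A + B)) ^ 2
      = 16 * s ^ 2 * (b / 2 * s - c * q) ^ 2 + 16 * c ^ 2 * (s * p) ^ 2 := by
    have hs2 : s ^ 2 = 1 - c ^ 2 := by linarith only [hsc]
    have e1 : A - B = 4 * c ^ 2 * (s * p) - 2 * m * (c * q - b / 2 * s) := by
      rw [hB, hA, hm]; ring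
    have e2 : A + B = 2 * (1 + m) * (c * q - b / 2 * s) + 2 * m * (s * p) := by
      rw [hB, hA, hm]; ring
    rw [e1, e2]
    have e3 : (2 * s * (4 * c ^ 2 * (s * p) - 2 * m * (c * q - b / 2 * s))) ^ 2
        + (2 * c * (2 * (1 + m) * (c * q - b / 2 * s) + 2 * m * (s * p))) ^ 2
        = s ^ 2 * (2 * (4 * c ^ 2 * (s * p) - 2 * m * (c * q - b / 2 * s))) ^ 2
          + (2 * c * (2 * (1 + m) * (c * q - b / 2 * s) + 2 * m * (s * p))) ^ 2 := by ring
    rw [e3]
    generalize s * p = t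
    generalize hw : c * q - b / 2 * s = w
    have hw2 : (b / 2 * s - c * q) ^ 2 = w ^ 2 := by rw [← hw]; ring
    rw [hw2, hs2, hm]
    ring
  rw [h]
  have := mul_nonneg (mul_nonneg (by norm_num : (0:ℝ) ≤ 16) (sq_nonneg c)) (sq_nonneg (s * p))
  linarith only [this]

theorem ipn (α : ℝ) (y : ℂ) : ip (uI α 0) y ≤ ‖y‖ := by
  have hsc := Real.sin_sq_add_cos_sq α
  rw [ip0, Complex.norm_eq_sqrt_sq_add_sq]
  apply Real.le_sqrt_of_sq_le
  have h := sq_nonneg (Real.sin α * y.im + Real.cos α * y.re)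
  have e : (-Real.sin α * y.re + Real.cos α * y.im) ^ 2
      + (Real.sin α * y.im + Real.cos α * y.re) ^ 2 = y.re ^ 2 + y.im ^ 2 := by
    linear_combination (y.re ^ 2 + y.im ^ 2) * hsc
  linarith

theorem ipsub (u y z : ℂ) : ip u (z - y) = ip u z - ip u y := by
  simp [ip]; ring

/-- the word `0 2` -/
def w02 : Wd := ⟨[0, 2], by decide⟩

/-- the word `1` -/
def w1 : Wd := ⟨[1], by decide⟩

end Kbd

section
open Kbd

/-- first range -/
theorem Kbd.case1 (hU : UpoStatement) (hL : LowStatement) (α b e d0 a : ℝ) (k : ℕ) (z x : ℂ)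
    (hs : 0 < Real.sin α) (hc : 0 < Real.cos α) (hb : 0 < b)
    (hd1 : d0 ≤ Real.cos α * e / 2) (hd2 : d0 ≤ b / 4) (ha : 0 < a) (hxr : |x.re| < d0)
    (hzx : ‖z - x‖ < d0) (hq1 : 0 ≤ x.im)
    (hcq : Real.cos α * x.im < b / 2 * Real.sin α - Real.cos α * e) :
    |UO (uI α) (hI α b) a k w012 z x - G ((k + 1) * a) (z - g0 α b x)|
        ≤ G ((k + 1) * a) (z - g1 α b x) + G ((k + 1) * a) (z - g2 α b x) := by
  have hsc := Real.sin_sq_add_cos_sq α
  have hs1 : Real.sin α ≤ 1 := Real.sin_le_one α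
  have hc1 : Real.cos α ≤ 1 := Real.cos_le_one α
  have hx1 := (abs_lt.mp hxr).1
  have hx2 := (abs_lt.mp hxr).2
  have hbs := bd hs hs1 hxr
  have hbc := bd hc hc1 hxr
  have hd0 : 0 < d0 := lt_of_le_of_lt (abs_nonneg _) hxr
  have hA2 : Real.sin α * x.re + Real.cos α * x.im - b / 2 * Real.sin α < 0 := by linarith
  have hbs0 : 0 < b / 2 * Real.sin α := by positivity
  have hA2c : (Real.sin α * x.re + Real.cos α * x.im - b / 2 * Real.sin α) * Real.cos α < 0 :=
    mul_neg_of_neg_of_pos hA2 hc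
  have hA2s : (Real.sin α * x.re + Real.cos α * x.im - b / 2 * Real.sin α) * Real.sin α < 0 :=
    mul_neg_of_neg_of_pos hA2 hs
  have hsq : 0 ≤ Real.sin α * x.im := mul_nonneg hs.le hq1
  have hcq0 : 0 ≤ Real.cos α * x.im := mul_nonneg hc.le hq1
  have c2 : ip (uI α 2) x < hI α b 2 := by
    rw [ip2, hI2]
    linarith only [hd1, hcq, hbs]
  have c1 : ip (uI α 1) (rf (uI α) (hI α b) 2 x) < hI α b 1 := by
    rw [ip1, r2, hI1]
    simp only []
    linarith only [hq1, hA2c]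
  have c0 : ip (uI α 0) (rf (uI α) (hI α b) 1 (rf (uI α) (hI α b) 2 x)) < hI α b 0 := by
    rw [r2, r1, ip0, hI0]
    simp only []
    rw [refl0 hsc]
    linarith only [hd1, hcq, hbs, hcq0]
  have n2 : ip ⟨Real.cos α, -Real.sin α⟩ (rf (uI α) (hI α b) 2 x) < b / 2 * Real.cos α := by
    have e1 : ∀ y : ℂ, ip ⟨Real.cos α, -Real.sin α⟩ y
      = Real.cos α * y.re + -Real.sin α * y.im := fun _ => rfl
    rw [e1, r2]
    simp only []
    have e2 : Real.cos α * (x.re - 2 * (Real.sin α * x.re + Real.cos α * x.im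
        - b / 2 * Real.sin α) * Real.sin α) + -Real.sin α * (x.im - 2 * (Real.sin α * x.re
        + Real.cos α * x.im - b / 2 * Real.sin α) * Real.cos α)
        = Real.cos α * x.re - Real.sin α * x.im := by ring
    rw [e2]
    have := mul_lt_mul_of_pos_left (show x.re < b / 2 by linarith only [hd2, hx1, hx2]) hc
    linarith only [hsq, this]
  have n1 : ip (-1) (rf (uI α) (hI α b) 1 (rf (uI α) (hI α b) 2 x)) < b / 2 := by
    have e1 : ∀ y : ℂ, ip (-1) y = -y.re := fun y => by simp [ip]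
    rw [e1, r2, r1]
    simp only []
    linarith only [hd2, hx1, hx2, hA2s]
  have m20 : ip (uI α 0) (rfl1 ⟨Real.cos α, -Real.sin α⟩ (b / 2 * Real.cos α)
      (rf (uI α) (hI α b) 2 x)) < hI α b 0 := by
    rw [m2 α b x, ip0, hI0]
    simp only [Complex.sub_re, Complex.ofReal_re, Complex.sub_im, Complex.ofReal_im]
    have h1 : Real.sin α * (b - x.re) > 0 := mul_pos hs (by linarith)
    linarith
  have z0 : ip (uI α 0) z < hI α b 0 := by
    have h1 := ipn α (z - x)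
    rw [ipsub, ip0 α x] at h1
    rw [hI0]
    linarith only [hd1, hzx, hcq, hbs, h1]
  have up := (((hU (uI α) (hI α b) (norm_uI α)) a ha k w012).2 z x).2 w012
    (List.Sublist.refl _)
  rw [f012 α b x c2 c1 c0] at up
  have nn2 : ‖(⟨Real.cos α, -Real.sin α⟩ : ℂ)‖ = 1 := by
    rw [Complex.norm_eq_sqrt_sq_add_sq]
    simp only []
    rw [show Real.cos α ^ 2 + (-Real.sin α) ^ 2 = 1 by linarith only [hsc], Real.sqrt_one]
  have cn1 : ∀ y, hI α b 0 ≤ ip (uI α 0) y → hI α b 1 ≤ ip (uI α 1) y →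
      b / 2 ≤ ip (-1) y := by
    intro y hy0 hy1
    rw [ip0, hI0] at hy0
    rw [ip1, hI1] at hy1
    have e1 : ip (-1) y = -y.re := by simp [ip]
    rw [e1]
    exact cone1 hs hc hy0 hy1
  have cn2 : ∀ y, hI α b 1 ≤ ip (uI α 1) y → hI α b 2 ≤ ip (uI α 2) y →
      b / 2 * Real.cos α ≤ ip ⟨Real.cos α, -Real.sin α⟩ y := by
    intro y hy1 hy2
    rw [ip2, hI2] at hy2
    rw [ip1, hI1] at hy1
    have e1 : ip ⟨Real.cos α, -Real.sin α⟩ y = Real.cos α * y.re + -Real.sin α * y.im := rfl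
    rw [e1]
    exact cone2 hs hc hy2 hy1
  have low := hL (uI α) (hI α b) (norm_uI α) (-1) ⟨Real.cos α, -Real.sin α⟩ (b / 2)
    (b / 2 * Real.cos α) a k z x (by simp) nn2 ha cn1 cn2 c2 c1 n2 c0 n1 m20 z0
  rw [r012, m1, m2] at low
  change G ((k + 1) * a) (z - g0 α b x) - G ((k + 1) * a) (z - g1 α b x)
    - G ((k + 1) * a) (z - g2 α b x) ≤ _ at low
  have hka : (0:ℝ) < (k + 1) * a := by positivity
  have p1 : 0 ≤ G ((k + 1) * a) (z - g1 α b x) := Kbd.Gnn hka _
  have p2 : 0 ≤ G ((k + 1) * a) (z - g2 α b x) := Kbd.Gnn hka _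
  rw [abs_le]
  constructor
  · linarith only [low]
  · linarith


/-- second range -/
theorem Kbd.case2 (hU : UpoStatement) (α b d0 a m : ℝ) (k : ℕ) (z x : ℂ)
    (hs : 0 < Real.sin α) (hc : 0 < Real.cos α) (hb : 0 < b)
    (hm : m = 1 - 2 * Real.cos α ^ 2) (hm1 : 0 < m)
    (hd2 : d0 ≤ b / 4) (ha : 0 < a) (hxr : |x.re| < d0)
    (hq1 : -((b - 2 * d0) * Real.sin α * Real.cos α / m) < x.im) (hq2 : x.im ≤ 0) :
    UO (uI α) (hI α b) a k w012 z x ≤ G ((k + 1) * a) (z - g0 α b x) := by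
  have hsc := Real.sin_sq_add_cos_sq α
  have hs1 : Real.sin α ≤ 1 := Real.sin_le_one α
  have hx2 := (abs_lt.mp hxr).2
  have hd0 : 0 < d0 := lt_of_le_of_lt (abs_nonneg _) hxr
  have hsp : Real.sin α * x.re < Real.sin α * d0 := mul_lt_mul_of_pos_left hx2 hs
  have hcsp : Real.cos α * (Real.sin α * x.re) < Real.cos α * (Real.sin α * d0) :=
    mul_lt_mul_of_pos_left hsp hc
  have hcq : Real.cos α * x.im ≤ 0 := mul_nonpos_of_nonneg_of_nonpos hc.le hq2
  have hsd : Real.sin α * d0 ≤ Real.sin α * (b / 4) := mul_le_mul_of_nonneg_left hd2 hs.le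
  have hbs0 : 0 < b * Real.sin α := by positivity
  have hA2 : Real.sin α * x.re + Real.cos α * x.im - b / 2 * Real.sin α < 0 := by linarith
  have hmq : -((b - 2 * d0) * Real.sin α * Real.cos α) < m * x.im := by
    have h := mul_lt_mul_of_pos_left hq1 hm1
    have e1 : m * -((b - 2 * d0) * Real.sin α * Real.cos α / m)
      = -((b - 2 * d0) * Real.sin α * Real.cos α) := by
      field_simp
    linarith only [h, e1]
  have him : 0 < x.im - 2 * (Real.sin α * x.re + Real.cos α * x.im - b / 2 * Real.sin α)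
      * Real.cos α := by
    have e1 : x.im - 2 * (Real.sin α * x.re + Real.cos α * x.im - b / 2 * Real.sin α)
      * Real.cos α = m * x.im - 2 * (Real.cos α * (Real.sin α * x.re))
        + b * Real.sin α * Real.cos α := by
      rw [hm]; ring
    rw [e1]
    linarith only [hcsp, hmq]
  have c2 : ip (uI α 2) x < hI α b 2 := by
    rw [ip2, hI2]
    linarith only [hsp, hcq, hsd, hbs0]
  have c1 : ip (uI α 1) (rf (uI α) (hI α b) 2 x) < hI α b 1 := by
    rw [ip1, r2, hI1]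
    simp only []
    linarith
  have c0 : ip (uI α 0) (rf (uI α) (hI α b) 1 (rf (uI α) (hI α b) 2 x)) < hI α b 0 := by
    rw [r2, r1, ip0, hI0]
    simp only []
    rw [refl0 hsc]
    linarith only [hsp, hcq, hsd, hbs0]
  have up := (((hU (uI α) (hI α b) (norm_uI α)) a ha k w012).2 z x).2 w012
    (List.Sublist.refl _)
  rw [f012 α b x c2 c1 c0] at up
  exact up

/-- third range -/
theorem Kbd.case3 (hU : UpoStatement) (α b e d0 a m : ℝ) (k : ℕ) (z x : ℂ)
    (hs : 0 < Real.sin α) (hc : 0 < Real.cos α) (hc2 : Real.cos α ≤ 1 / 2) (hb : 0 < b)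
    (hm : m = 1 - 2 * Real.cos α ^ 2) (hm1 : 1 / 2 ≤ m)
    (hd2 : d0 ≤ b / 4) (hd3 : d0 ≤ e / 4) (ha : 0 < a) (hxr : |x.re| < d0)
    (hlz : Lz α b ≤ 2 * b * Real.sin α ^ 2 / m)
    (hq1 : x.im ≤ -((b - 2 * d0) * Real.sin α * Real.cos α / m)) (hq2 : x.im ≤ 0) :
    UO (uI α) (hI α b) a k w012 z x
        ≤ G ((k + 1) * a) (z - rf (uI α) (hI α b) 0 (rf (uI α) (hI α b) 2 x)) ∧
      Lz α b - e ≤ ‖x - rf (uI α) (hI α b) 0 (rf (uI α) (hI α b) 2 x)‖ := by
  have hsc := Real.sin_sq_add_cos_sq α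
  have hs1 : Real.sin α ≤ 1 := Real.sin_le_one α
  have hx1 := (abs_lt.mp hxr).1
  have hx2 := (abs_lt.mp hxr).2
  have hm0 : 0 < m := by linarith only [hm1]
  have hd0 : 0 < d0 := lt_of_le_of_lt (abs_nonneg _) hxr
  have hsp : Real.sin α * x.re < Real.sin α * d0 := mul_lt_mul_of_pos_left hx2 hs
  have hsp' : Real.sin α * (-d0) < Real.sin α * x.re := mul_lt_mul_of_pos_left hx1 hs
  have hcq : Real.cos α * x.im ≤ 0 := mul_nonpos_of_nonneg_of_nonpos hc.le hq2
  have hsd : Real.sin α * d0 ≤ Real.sin α * (b / 4) := mul_le_mul_of_nonneg_left hd2 hs.le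
  have hbs0 : 0 < b * Real.sin α := by positivity
  have hA2 : Real.sin α * x.re + Real.cos α * x.im - b / 2 * Real.sin α < 0 := by linarith only [hsp, hsp', hcq, hsd]
  have hA2m : (Real.sin α * x.re + Real.cos α * x.im - b / 2 * Real.sin α) * m < 0 :=
    mul_neg_of_neg_of_pos hA2 hm0
  have c2 : ip (uI α 2) x < hI α b 2 := by
    rw [ip2, hI2]
    linarith only [hsp, hsp', hcq, hsd]
  have c0 : ip (uI α 0) (rf (uI α) (hI α b) 2 x) < hI α b 0 := by
    rw [r2, ip0, hI0]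
    simp only []
    rw [refl02 hsc hm]
    linarith only [hsp, hsp', hcq, hsd, hA2m]
  constructor
  · have up := (((hU (uI α) (hI α b) (norm_uI α)) a ha k w012).2 z x).2 w02 (by decide)
    have e1 : w02.1 = [0, 2] := rfl
    rw [e1, f02 α b x c2 c0] at up
    exact up
  · set A := Real.sin α * x.re + Real.cos α * x.im - b / 2 * Real.sin α with hA
    set B := -Real.sin α * x.re + Real.cos α * x.im + 2 * A * m - b / 2 * Real.sin α with hB
    have e1 : x - rf (uI α) (hI α b) 0 (rf (uI α) (hI α b) 2 x)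
        = ⟨2 * Real.sin α * (A - B), 2 * Real.cos α * (A + B)⟩ := by
      rw [r2, r0, ← hA]
      have e2 := refl02 (s := Real.sin α) (c := Real.cos α) (b := b) (p := x.re) (q := x.im) hsc hm
      rw [← hA] at e2
      have e3 : -Real.sin α * (x.re - 2 * A * Real.sin α) + Real.cos α * (x.im - 2 * A * Real.cos α)
        - b / 2 * Real.sin α = B := by rw [e2, hB]
      apply Complex.ext
      · simp only [Complex.sub_re]
        rw [e3]
        ring
      · simp only [Complex.sub_im]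
        rw [e3]
        ring
    rw [e1, Complex.norm_eq_sqrt_sq_add_sq]
    have h1 := nrm hsc hm hA hB
    have hw : 0 ≤ b / 2 * Real.sin α - Real.cos α * x.im := by linarith only [hsp, hsp', hcq, hsd]
    have h2 : 4 * Real.sin α * (b / 2 * Real.sin α - Real.cos α * x.im) ≤
        √((2 * Real.sin α * (A - B)) ^ 2 + (2 * Real.cos α * (A + B)) ^ 2) := by
      apply Real.le_sqrt_of_sq_le
      refine le_trans (le_of_eq ?_) h1
      ring
    refine le_trans ?_ h2
    refine le_trans (sub_le_sub_right hlz e) ?_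
    have h3 : Real.cos α * ((b - 2 * d0) * Real.sin α * Real.cos α / m)
        ≤ -(Real.cos α * x.im) := by
      have := mul_le_mul_of_nonneg_left hq1 hc.le
      linarith only [this]
    have h4 : 4 * Real.sin α * (b / 2 * Real.sin α
        + Real.cos α * ((b - 2 * d0) * Real.sin α * Real.cos α / m))
        ≤ 4 * Real.sin α * (b / 2 * Real.sin α - Real.cos α * x.im) := by
      apply mul_le_mul_of_nonneg_left _ (by positivity)
      linarith only [h3]
    refine le_trans ?_ h4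
    have h5 : 4 * Real.sin α * (b / 2 * Real.sin α
        + Real.cos α * ((b - 2 * d0) * Real.sin α * Real.cos α / m))
        = 2 * b * Real.sin α ^ 2 / m - 8 * Real.sin α ^ 2 * Real.cos α ^ 2 * d0 / m := by
      field_simp
      rw [hm]
      ring
    rw [h5]
    have h6 : 8 * Real.sin α ^ 2 * Real.cos α ^ 2 * d0 / m ≤ e := by
      rw [div_le_iff₀ hm0]
      have hc3 : Real.cos α ^ 2 ≤ 1 / 4 := by
        have := pow_le_pow_left₀ hc.le hc2 2
        linarith only [this, (by norm_num : ((1:ℝ) / 2) ^ 2 = 1 / 4)]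
      have hs3 : Real.sin α ^ 2 ≤ 1 := by
        have := pow_le_pow_left₀ hs.le hs1 2
        linarith only [this]
      have h7 : Real.sin α ^ 2 * Real.cos α ^ 2 ≤ 1 * (1 / 4) :=
        mul_le_mul hs3 hc3 (sq_nonneg _) (by norm_num)
      have h8 : (Real.sin α ^ 2 * Real.cos α ^ 2) * d0 ≤ (1 * (1 / 4)) * d0 :=
        mul_le_mul_of_nonneg_right h7 hd0.le
      have he : 0 < e := by linarith only [hd3, hx1, hx2]
      have h9 : e * (1 / 2) ≤ e * m := mul_le_mul_of_nonneg_left hm1 he.le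
      linarith only [hd3, h8, h9]
    linarith only [h6]

end

open Kbd in
theorem kbd (hU : UpoStatement) (hL : LowStatement) : KbdStatement := by
  intro α b e hα1 hα2 hb he
  have hpi := Real.pi_pos
  have hs : 0 < Real.sin α := Real.sin_pos_of_pos_of_lt_pi (by linarith) (by linarith)
  have hc : 0 < Real.cos α := Real.cos_pos_of_mem_Ioo ⟨by linarith, hα2⟩
  have hc2 : Real.cos α ≤ 1 / 2 := by
    rw [← Real.cos_pi_div_three]
    exact Real.cos_le_cos_of_nonneg_of_le_pi (by linarith) (by linarith) hα1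
  have htan : Real.tan α = Real.sin α / Real.cos α := Real.tan_eq_sin_div_cos α
  have hcos2 : Real.cos (2 * α) = 2 * Real.cos α ^ 2 - 1 := Real.cos_two_mul α
  have hlz : Lz α b ≤ 2 * b * Real.sin α ^ 2 / (1 - 2 * Real.cos α ^ 2) := by
    unfold Lz
    refine le_trans (min_le_right _ _) (le_of_eq ?_)
    rw [hcos2, ← neg_sub (1 : ℝ) (2 * Real.cos α ^ 2), div_neg, neg_neg]
  have hm1 : 1 / 2 ≤ 1 - 2 * Real.cos α ^ 2 := by
    have := pow_le_pow_left₀ hc.le hc2 2
    linarith only [this, (by norm_num : ((1:ℝ) / 2) ^ 2 = 1 / 4)]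
  have hd0 : 0 < min (Real.cos α * e / 2) (b / 4) := lt_min (by positivity) (by positivity)
  set d0 := min (Real.cos α * e / 2) (b / 4) with hd0e
  have hd1 : d0 ≤ Real.cos α * e / 2 := min_le_left _ _
  have hd2 : d0 ≤ b / 4 := min_le_right _ _
  have hd3 : d0 ≤ e / 4 := by
    have := mul_le_mul_of_nonneg_right hc2 he.le
    linarith only [hd1, this]
  have hc2pos : 0 < (b - 2 * d0) * Real.sin α * Real.cos α / (1 - 2 * Real.cos α ^ 2) := by
    apply div_pos _ (by linarith only [hm1])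
    apply mul_pos (mul_pos (by linarith only [hd0, hd2]) hs) hc
  refine ⟨d0, (b - 2 * d0) * Real.sin α * Real.cos α / (1 - 2 * Real.cos α ^ 2), hd0,
    hc2pos, ?_⟩
  intro a k z x ha hxr hzx
  refine ⟨?_, ?_, ?_, ?_⟩
  · intro hq1 hq2
    rw [htan] at hq2
    have hcq : Real.cos α * x.im < b / 2 * Real.sin α - Real.cos α * e := by
      have := mul_lt_mul_of_pos_left hq2 hc
      have e1 : Real.cos α * (b / 2 * (Real.sin α / Real.cos α) - e)
          = b / 2 * Real.sin α - Real.cos α * e := by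
        field_simp
      linarith only [this, e1]
    exact case1 hU hL α b e d0 a k z x hs hc hb hd1 hd2 ha hxr hzx hq1 hcq
  · intro hq1 hq2
    exact case2 hU α b d0 a _ k z x hs hc hb rfl (by linarith only [hm1]) hd2 ha hxr hq1 hq2
  · intro hq1
    exact case3 hU α b e d0 a _ k z x hs hc hc2 hb rfl hm1 hd2 hd3 ha hxr hlz hq1 (by linarith only [hc2pos, hq1])
  · intro _ hq
    have up := (((hU (uI α) (hI α b) (norm_uI α)) a ha k w012).2 z x).2 w1 (by decide)
    have e1 : w1.1 = [1] := rfl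
    rw [e1, f1 α b x hq] at up
    exact up

end Pool.Agent.XQ.GI
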