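import Pool.Agent.Helper36_XQ.Stmt4
import Pool.Agent.Helper51_KT.Ktb

/-!
Squad XQ, part A4, module KLB (helper50): the Macdonald functions at large arguments.
-/

set_option autoImplicit false

namespace Pool.Agent.XQ.K4.H50

open MeasureTheory Filter Topology Pool.Agent.H38KL Set

theorem kit0 (x : ℝ) : Kit 0 x = ∫ v in Ioi (0 : ℝ), Real.exp (-(x * Real.cosh v)) := by
  unfold Kit
  simp

theorem iI {y : ℝ} (hy : 0 < y) :
    IntegrableOn (fun v : ℝ => Real.exp (-(y * Real.cosh v))) (Ioi 0) :=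
  (intg_exp_cosh hy).integrableOn

theorem sinh_le_cosh' (v : ℝ) : |Real.sinh v| ≤ Real.cosh v := by
  rw [abs_le]
  have h1 := Real.exp_pos v
  have h2 := Real.exp_pos (-v)
  have e1 := Real.cosh_add_sinh v
  have e2 := Real.cosh_sub_sinh v
  constructor <;> linarith

theorem iS {y : ℝ} (hy : 0 < y) :
    IntegrableOn (fun v : ℝ => v * Real.sinh v * Real.exp (-(y * Real.cosh v))) (Ioi 0) := by
  refine Integrable.integrableOn ?_
  refine (intg_cosh_pow_exp hy 2).mono' (by fun_prop) (Eventually.of_forall fun v => ?_)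
  rw [norm_mul, norm_mul, Real.norm_eq_abs, Real.norm_eq_abs, Real.norm_eq_abs,
    abs_of_pos (Real.exp_pos _)]
  apply mul_le_mul_of_nonneg_right _ (Real.exp_pos _).le
  rw [pow_two]
  exact mul_le_mul (abs_le_cosh v) (sinh_le_cosh' v) (abs_nonneg _) (Real.cosh_pos v).le

theorem iV {y : ℝ} (hy : 0 < y) :
    IntegrableOn (fun v : ℝ => v ^ 2 * Real.exp (-(y * Real.cosh v))) (Ioi 0) := by
  refine Integrable.integrableOn ?_
  refine (intg_cosh_pow_exp hy 2).mono' (by fun_prop) (Eventually.of_forall fun v => ?_)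
  rw [norm_mul, Real.norm_eq_abs, Real.norm_eq_abs, abs_of_pos (Real.exp_pos _),
    abs_of_nonneg (sq_nonneg v)]
  apply mul_le_mul_of_nonneg_right _ (Real.exp_pos _).le
  rw [← sq_abs]
  exact pow_le_pow_left₀ (abs_nonneg _) (abs_le_cosh v) 2

/-- integration by parts -/
theorem parts {y : ℝ} (hy : 0 < y) :
    ∫ v in Ioi (0 : ℝ), v * Real.sinh v * Real.exp (-(y * Real.cosh v)) = Kit 0 y / y := by
  have hd : ∀ v ∈ Ici (0 : ℝ), HasDerivAt (fun v : ℝ => -(v * Real.exp (-(y * Real.cosh v)) / y))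
      (v * Real.sinh v * Real.exp (-(y * Real.cosh v)) - Real.exp (-(y * Real.cosh v)) / y) v := by
    intro v _
    have h1 : HasDerivAt (fun v : ℝ => -(y * Real.cosh v)) (-(y * Real.sinh v)) v :=
      ((Real.hasDerivAt_cosh v).const_mul y).neg
    have h2 := ((hasDerivAt_id v).mul h1.exp).div_const y |>.neg
    refine h2.congr_deriv ?_
    simp only [id]
    field_simp
    ring
  have hi : IntegrableOn (fun v : ℝ => v * Real.sinh v * Real.exp (-(y * Real.cosh v))
      - Real.exp (-(y * Real.cosh v)) / y) (Ioi 0) := (iS hy).sub ((iI hy).div_const y)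
  have ht : Tendsto (fun v : ℝ => -(v * Real.exp (-(y * Real.cosh v)) / y)) atTop (𝓝 0) := by
    have h1 : Tendsto (fun v : ℝ => v * Real.exp (-(y * v))) atTop (𝓝 0) := by
      have := Real.tendsto_pow_mul_exp_neg_atTop_nhds_zero 1
      have h2 := (this.comp (tendsto_id.const_mul_atTop hy)).const_mul (1 / y)
      rw [mul_zero] at h2
      refine h2.congr fun v => ?_
      simp only [Function.comp, id, pow_one]
      field_simp
    have h3 : Tendsto (fun v : ℝ => v * Real.exp (-(y * Real.cosh v))) atTop (𝓝 0) := by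
      refine squeeze_zero' ?_ ?_ h1
      · filter_upwards [eventually_ge_atTop (0:ℝ)] with v hv
        positivity
      · filter_upwards [eventually_ge_atTop (0:ℝ)] with v hv
        apply mul_le_mul_of_nonneg_left _ hv
        rw [Real.exp_le_exp]
        have := abs_le_cosh v
        rw [abs_of_nonneg hv] at this
        have := mul_le_mul_of_nonneg_left this hy.le
        linarith
    have := (h3.div_const y).neg
    simpa using this
  have h := integral_Ioi_of_hasDerivAt_of_tendsto (hd 0 self_mem_Ici).continuousAt.continuousWithinAt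
    (fun v hv => hd v (mem_Ici.mpr (le_of_lt hv))) hi ht
  rw [integral_sub (iS hy) ((iI hy).div_const y), integral_div, ← kit0] at h
  simp only [zero_mul, zero_div, neg_zero, sub_zero] at h
  linarith

theorem vv {y : ℝ} (hy : 0 < y) :
    ∫ v in Ioi (0 : ℝ), v ^ 2 * Real.exp (-(y * Real.cosh v)) ≤ Kit 0 y / y := by
  rw [← parts hy]
  refine setIntegral_mono_on (iV hy) (iS hy) measurableSet_Ioi fun v hv => ?_
  apply mul_le_mul_of_nonneg_right _ (Real.exp_pos _).le
  rw [pow_two]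
  exact mul_le_mul_of_nonneg_left (Real.self_le_sinh_iff.mpr (le_of_lt hv)) (le_of_lt hv)

theorem one {τ y : ℝ} (hy : 0 < y) : (1 - τ ^ 2 / (2 * y)) * Kit 0 y ≤ Kit τ y := by
  have h1 : ∫ v in Ioi (0 : ℝ), (Real.exp (-(y * Real.cosh v))
      - τ ^ 2 / 2 * (v ^ 2 * Real.exp (-(y * Real.cosh v)))) ≤ Kit τ y := by
    refine setIntegral_mono_on ((iI hy).sub ((iV hy).const_mul _)) (Kit_intg hy τ).integrableOn
      measurableSet_Ioi fun v _ => ?_
    have h2 := Real.one_sub_sq_div_two_le_cos (x := τ * v)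
    have h3 := mul_le_mul_of_nonneg_left h2 (Real.exp_pos (-(y * Real.cosh v))).le
    refine le_trans (le_of_eq ?_) h3
    ring
  rw [integral_sub (iI hy) ((iV hy).const_mul _), integral_const_mul, ← kit0] at h1
  have h2 := mul_le_mul_of_nonneg_left (vv hy) (show 0 ≤ τ ^ 2 / 2 by positivity)
  refine le_trans (le_of_eq ?_) (le_trans (sub_le_sub_left h2 _) h1)
  field_simp

theorem cosh_lo (v : ℝ) : 1 + v ^ 2 / 2 ≤ Real.cosh v := by
  have h1 : Real.cosh v = 1 + 2 * Real.sinh (v / 2) ^ 2 := by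
    have h := Real.cosh_two_mul (v / 2)
    have h2 := Real.cosh_sq (v / 2)
    rw [show 2 * (v / 2) = v by ring] at h
    linarith
  have h2 : (v / 2) ^ 2 ≤ Real.sinh (v / 2) ^ 2 := by
    apply sq_le_sq.mpr
    rw [Real.abs_sinh]
    exact Real.self_le_sinh_iff.mpr (abs_nonneg _)
  rw [h1]
  nlinarith

theorem cosh_hi {v : ℝ} (h0 : 0 ≤ v) (h1 : v ≤ 1) : Real.cosh v ≤ 1 + v ^ 2 := by
  have h2 := Real.cosh_le_exp_half_sq v
  have h3 : v ^ 2 ≤ 1 := by nlinarith
  have h4 := Real.abs_exp_sub_one_sub_id_le (x := v ^ 2 / 2)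
    (by rw [abs_of_nonneg (by positivity)]; linarith)
  have h5 := (abs_le.mp h4).2
  nlinarith [sq_nonneg v]

theorem up {y : ℝ} (hy : 0 < y) :
    Kit 0 y ≤ √(2 * Real.pi) / 2 * y ^ (-(1 / 2) : ℝ) * Real.exp (-y) := by
  rw [kit0]
  have h1 : ∫ v in Ioi (0 : ℝ), Real.exp (-(y * Real.cosh v)) ≤
      ∫ v in Ioi (0 : ℝ), Real.exp (-y) * Real.exp (-(y / 2) * v ^ 2) := by
    refine setIntegral_mono_on (iI hy) ((integrable_exp_neg_mul_sq (by positivity)).integrableOn.const_mul _)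
      measurableSet_Ioi fun v _ => ?_
    rw [← Real.exp_add, Real.exp_le_exp]
    have := mul_le_mul_of_nonneg_left (cosh_lo v) hy.le
    linarith
  refine le_trans h1 (le_of_eq ?_)
  rw [integral_const_mul, integral_gaussian_Ioi]
  have e1 : Real.pi / (y / 2) = 2 * Real.pi * (1 / y) := by field_simp
  rw [e1, Real.sqrt_mul (by positivity), Real.rpow_neg hy.le, ← Real.sqrt_eq_rpow,
    Real.sqrt_div zero_le_one, Real.sqrt_one]
  ring

theorem lo {y : ℝ} (hy : 1 ≤ y) :
    Real.exp (-1) * y ^ (-(1 / 2) : ℝ) * Real.exp (-y) ≤ Kit 0 y := by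
  have hy0 : 0 < y := by linarith
  rw [kit0, Real.rpow_neg hy0.le, ← Real.sqrt_eq_rpow]
  have hs : 1 ≤ √y := Real.one_le_sqrt.mpr hy
  have hs0 : 0 < √y := by linarith
  have hi : (√y)⁻¹ ≤ 1 := inv_le_one_of_one_le₀ hs
  have h1 : ∫ v in Ioc (0 : ℝ) (√y)⁻¹, Real.exp (-1) * Real.exp (-y)
      ≤ ∫ v in Ioc (0 : ℝ) (√y)⁻¹, Real.exp (-(y * Real.cosh v)) := by
    refine setIntegral_mono_on (integrableOn_const (by simp)) ((intg_exp_cosh hy0).integrableOn)
      measurableSet_Ioc fun v hv => ?_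
    rw [← Real.exp_add, Real.exp_le_exp]
    have h2 := mul_le_mul_of_nonneg_left (cosh_hi hv.1.le (hv.2.trans hi)) hy0.le
    have h3 : v ^ 2 ≤ ((√y)⁻¹) ^ 2 := pow_le_pow_left₀ hv.1.le hv.2 2
    rw [inv_pow, Real.sq_sqrt hy0.le] at h3
    have h4 := mul_le_mul_of_nonneg_left h3 hy0.le
    rw [mul_inv_cancel₀ hy0.ne'] at h4
    linarith
  have h2 : ∫ v in Ioc (0 : ℝ) (√y)⁻¹, Real.exp (-(y * Real.cosh v))
      ≤ ∫ v in Ioi (0 : ℝ), Real.exp (-(y * Real.cosh v)) :=
    setIntegral_mono_set (iI hy0) (Eventually.of_forall fun v => (Real.exp_pos _).le)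
      (Eventually.of_forall fun v hv => hv.1)
  refine le_trans (le_of_eq ?_) (h1.trans h2)
  simp [hs0.le]
  ring

theorem km (y : ℝ) : Measurable (fun τ : ℝ => Kit τ y) :=
  Pool.Agent.H60K.H51.kit_meas.comp (measurable_id.prodMk measurable_const)

theorem iE {β : ℝ} (hβ : 0 < β) (T : ℝ) :
    IntegrableOn (fun τ : ℝ => Real.exp (-(β * τ))) (Ioi T) := by
  have := integrableOn_exp_mul_Ioi (a := -β) (by linarith) T
  refine this.congr_fun (fun v _ => ?_) measurableSet_Ioi
  simp only []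
  congr 1
  ring

theorem iEv {β : ℝ} (hβ : 0 < β) (T : ℝ) :
    ∫ τ in Ioi T, Real.exp (-(β * τ)) = Real.exp (-(β * T)) / β := by
  have := integral_exp_mul_Ioi (a := -β) (by linarith) T
  have e1 : ∫ τ in Ioi T, Real.exp (-(β * τ)) = ∫ τ in Ioi T, Real.exp (-β * τ) := by
    congr 1
    funext v
    congr 1
    ring
  rw [e1, this, neg_mul]
  rw [div_neg, neg_div, neg_neg]

theorem klb : KlbStatement := by
  refine ⟨fun τ y hy => one hy, ⟨Real.exp (-1), √(2 * Real.pi) / 2, Real.exp_pos _,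
    by positivity, fun y hy => ⟨lo hy, up (by linarith)⟩⟩, ?_⟩
  intro c0 C0 β r0 r1 hc0 hC0 hβ hr0 hr01
  -- the point `T`
  obtain ⟨T, hT1, hT2⟩ : ∃ T : ℝ, 1 ≤ T ∧ C0 * (Real.exp (-(β * T)) / β) ≤ c0 / 24 := by
    have h1 : Tendsto (fun T : ℝ => C0 * (Real.exp (-(β * T)) / β)) atTop (𝓝 (C0 * (0 / β))) := by
      refine Tendsto.const_mul _ (Tendsto.div_const ?_ _)
      exact Real.tendsto_exp_neg_atTop_nhds_zero.comp (tendsto_id.const_mul_atTop hβ)
    rw [zero_div, mul_zero] at h1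
    have h2 := (h1.eventually (gt_mem_nhds (show (0:ℝ) < c0 / 24 by positivity))).and
      (eventually_ge_atTop (1:ℝ))
    obtain ⟨T, h3, h4⟩ := h2.exists
    exact ⟨T, h4, h3.le⟩
  have hT0 : 0 < T := by linarith
  refine ⟨c0 / 24 * Real.exp (-1) ^ 2 / r1, (√(2 * Real.pi) / 2) ^ 2 * (C0 / β) / r0,
    1 / r0 + T ^ 2 / r0, div_pos (by positivity) (by linarith), by positivity, by positivity, ?_⟩
  intro κ r r' m hκ hr1 hr2 hr1' hr2' hm hml hmu
  have hκ1 : 1 / r0 ≤ κ := by
    have : 0 ≤ T ^ 2 / r0 := by positivity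
    linarith
  have hκ2 : T ^ 2 / r0 ≤ κ := by
    have : 0 ≤ 1 / r0 := by positivity
    linarith
  have hκ0 : 0 < κ := lt_of_lt_of_le (by positivity) hκ1
  have hr : 0 < r := by linarith
  have hr' : 0 < r' := by linarith
  have key : ∀ s : ℝ, r0 ≤ s → 1 ≤ κ * s ∧ T ^ 2 ≤ κ * s := by
    intro s hs
    rw [div_le_iff₀ hr0] at hκ1 hκ2
    have := mul_le_mul_of_nonneg_left hs hκ0.le
    constructor <;> linarith
  have hK1 := Kit_zero_pos (x := κ * r) (by positivity)
  have hK2 := Kit_zero_pos (x := κ * r') (by positivity)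
  set K1 := Kit 0 (κ * r) with hK1e
  set K2 := Kit 0 (κ * r') with hK2e
  have hbd : ∀ τ : ℝ, 0 < τ → |Kit τ (κ * r) * Kit τ (κ * r') * m τ|
      ≤ K1 * K2 * (C0 * Real.exp (-(β * τ))) := by
    intro τ hτ
    rw [abs_mul, abs_mul, abs_of_nonneg (hmu τ hτ).1]
    exact mul_le_mul (mul_le_mul (abs_Kit_le_zero (by positivity) τ)
      (abs_Kit_le_zero (by positivity) τ) (abs_nonneg _) hK1.le) (hmu τ hτ).2
      (hmu τ hτ).1 (by positivity)
  have hgI : IntegrableOn (fun τ : ℝ => K1 * K2 * (C0 * Real.exp (-(β * τ)))) (Ioi 0) :=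
    ((iE hβ 0).const_mul _).const_mul _
  have hI : IntegrableOn (fun τ : ℝ => Kit τ (κ * r) * Kit τ (κ * r') * m τ) (Ioi 0) := by
    refine Integrable.mono' hgI (((km _).mul (km _)).mul hm).aestronglyMeasurable ?_
    filter_upwards [ae_restrict_mem measurableSet_Ioi] with τ hτ
    exact hbd τ hτ
  -- the product of the values at `0`
  have hmean : ∀ s s' : ℝ, 0 < s → 0 < s' →
      ((κ * s) ^ (-(1 / 2) : ℝ)) * ((κ * s') ^ (-(1 / 2) : ℝ)) = κ⁻¹ * (√(s * s'))⁻¹ := by
    intro s s' hs hs'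
    rw [Real.rpow_neg (by positivity), Real.rpow_neg (by positivity), ← Real.sqrt_eq_rpow,
      ← Real.sqrt_eq_rpow, Real.sqrt_mul hκ0.le, Real.sqrt_mul hκ0.le, Real.sqrt_mul hs.le]
    have e := Real.mul_self_sqrt hκ0.le
    have h1 : 0 < √κ := Real.sqrt_pos.mpr hκ0
    have h2 : 0 < √s := Real.sqrt_pos.mpr hs
    have h3 : 0 < √s' := Real.sqrt_pos.mpr hs'
    have e2 : κ⁻¹ = (√κ)⁻¹ * (√κ)⁻¹ := by rw [← mul_inv, e]
    rw [e2, mul_inv, mul_inv, mul_inv]
    ring
  have hsq1 : r0 ≤ √(r * r') := by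
    apply Real.le_sqrt_of_sq_le
    rw [pow_two]
    exact mul_le_mul hr1 hr1' hr0.le hr.le
  have hsq2 : √(r * r') ≤ r1 := by
    rw [Real.sqrt_le_left (by linarith), pow_two]
    exact mul_le_mul hr2 hr2' hr'.le (by linarith)
  have hsq0 : 0 < √(r * r') := by linarith
  have hexp : Real.exp (-(κ * r)) * Real.exp (-(κ * r')) = Real.exp (-(κ * (r + r'))) := by
    rw [← Real.exp_add]
    congr 1
    ring
  have hKu : K1 * K2 ≤ (√(2 * Real.pi) / 2) ^ 2 / r0 * κ⁻¹ * Real.exp (-(κ * (r + r'))) := by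
    have h1 := up (y := κ * r) (by positivity)
    have h2 := up (y := κ * r') (by positivity)
    have h3 := mul_le_mul h1 h2 hK2.le (by positivity)
    refine h3.trans ?_
    have e1 : √(2 * Real.pi) / 2 * (κ * r) ^ (-(1 / 2) : ℝ) * Real.exp (-(κ * r)) *
        (√(2 * Real.pi) / 2 * (κ * r') ^ (-(1 / 2) : ℝ) * Real.exp (-(κ * r')))
        = (√(2 * Real.pi) / 2) ^ 2 * ((κ * r) ^ (-(1 / 2) : ℝ) * (κ * r') ^ (-(1 / 2) : ℝ))
          * (Real.exp (-(κ * r)) * Real.exp (-(κ * r'))) := by ring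
    rw [e1, hmean r r' hr hr', hexp]
    apply mul_le_mul_of_nonneg_right _ (Real.exp_pos _).le
    rw [div_mul_eq_mul_div, mul_div_assoc]
    apply mul_le_mul_of_nonneg_left _ (sq_nonneg _)
    rw [div_eq_mul_inv]
    apply mul_le_mul_of_nonneg_left _ (by positivity)
    exact inv_anti₀ hr0 hsq1
  have hKl : Real.exp (-1) ^ 2 / r1 * κ⁻¹ * Real.exp (-(κ * (r + r'))) ≤ K1 * K2 := by
    have h1 := lo (y := κ * r) (key r hr1).1
    have h2 := lo (y := κ * r') (key r' hr1').1
    have h3 := mul_le_mul h1 h2 (by positivity) hK1.le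
    refine le_trans ?_ h3
    have e1 : Real.exp (-1) * (κ * r) ^ (-(1 / 2) : ℝ) * Real.exp (-(κ * r)) *
        (Real.exp (-1) * (κ * r') ^ (-(1 / 2) : ℝ) * Real.exp (-(κ * r')))
        = Real.exp (-1) ^ 2 * ((κ * r) ^ (-(1 / 2) : ℝ) * (κ * r') ^ (-(1 / 2) : ℝ))
          * (Real.exp (-(κ * r)) * Real.exp (-(κ * r'))) := by ring
    rw [e1, hmean r r' hr hr', hexp]
    apply mul_le_mul_of_nonneg_right _ (Real.exp_pos _).le
    rw [div_mul_eq_mul_div, mul_div_assoc]
    apply mul_le_mul_of_nonneg_left _ (sq_nonneg _)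
    rw [div_eq_mul_inv]
    apply mul_le_mul_of_nonneg_left _ (by positivity)
    exact inv_anti₀ hsq0 hsq2
  refine ⟨hI, ?_, ?_⟩
  · -- lower bound
    have hind1 : IntegrableOn ((Ioc (0:ℝ) 1).indicator (fun τ : ℝ => c0 / 4 * τ ^ 2)) (Ioi 0) := by
      have : IntegrableOn (fun τ : ℝ => c0 / 4 * τ ^ 2) (Ioc 0 1) :=
        (Continuous.integrableOn_Icc (by fun_prop)).mono_set Ioc_subset_Icc_self
      exact (this.integrable_indicator measurableSet_Ioc).integrableOn
    have hind2 : IntegrableOn ((Ioi T).indicator (fun τ : ℝ => C0 * Real.exp (-(β * τ)))) (Ioi 0) :=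
      (IntegrableOn.integrable_indicator ((iE hβ T).const_mul C0) measurableSet_Ioi).integrableOn
    have hpt : ∀ τ ∈ Ioi (0:ℝ), K1 * K2 * ((Ioc (0:ℝ) 1).indicator (fun τ : ℝ => c0 / 4 * τ ^ 2) τ
        - (Ioi T).indicator (fun τ : ℝ => C0 * Real.exp (-(β * τ))) τ)
        ≤ Kit τ (κ * r) * Kit τ (κ * r') * m τ := by
      intro τ hτ
      have hτ0 : 0 < τ := hτ
      by_cases hτT : τ ≤ T
      · have hnot : τ ∉ Ioi T := by simpa using hτT
        rw [indicator_of_notMem hnot, sub_zero]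
        have half : ∀ s : ℝ, r0 ≤ s → Kit 0 (κ * s) / 2 ≤ Kit τ (κ * s) := by
          intro s hs
          have hs0 : 0 < κ * s := lt_of_lt_of_le one_pos (key s hs).1
          refine le_trans ?_ (one hs0)
          have h1 : τ ^ 2 / (2 * (κ * s)) ≤ 1 / 2 := by
            rw [div_le_iff₀ (by positivity)]
            have h2 : τ ^ 2 ≤ T ^ 2 := pow_le_pow_left₀ hτ0.le hτT 2
            linarith [(key s hs).2]
          have h2 := Kit_zero_pos hs0
          have h3 := mul_le_mul_of_nonneg_right h1 h2.le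
          linarith
        have h1 := half r hr1
        have h2 := half r' hr1'
        have h3 : K1 * K2 / 4 ≤ Kit τ (κ * r) * Kit τ (κ * r') := by
          have := mul_le_mul h1 h2 (by positivity) (le_trans (by positivity) h1)
          refine le_trans (le_of_eq ?_) this
          ring
        have hm0 := (hmu τ hτ0).1
        refine le_trans ?_ (mul_le_mul_of_nonneg_right h3 hm0)
        have hKK : 0 < K1 * K2 := mul_pos hK1 hK2
        by_cases hτ1 : τ ≤ 1
        · rw [indicator_of_mem (show τ ∈ Ioc (0:ℝ) 1 from ⟨hτ0, hτ1⟩)]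
          have h4 := mul_le_mul_of_nonneg_left (hml τ hτ0 hτ1) (show 0 ≤ K1 * K2 / 4 by positivity)
          refine le_trans (le_of_eq ?_) h4
          ring
        · rw [indicator_of_notMem (show τ ∉ Ioc (0:ℝ) 1 from fun h => hτ1 h.2), mul_zero]
          positivity
      · have hτT' : T < τ := not_le.mp hτT
        rw [indicator_of_mem (show τ ∈ Ioi T from hτT'),
          indicator_of_notMem (show τ ∉ Ioc (0:ℝ) 1 from fun h => absurd h.2 (by linarith))]
        have h1 := (abs_le.mp (hbd τ hτ0)).1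
        refine le_trans (le_of_eq ?_) h1
        ring
    have h1 := setIntegral_mono_on ((hind1.sub hind2).const_mul (K1 * K2)) hI measurableSet_Ioi hpt
    rw [integral_const_mul, integral_sub' hind1 hind2] at h1
    have e1 : ∫ τ in Ioi (0:ℝ), (Ioc (0:ℝ) 1).indicator (fun τ : ℝ => c0 / 4 * τ ^ 2) τ
        = c0 / 12 := by
      rw [setIntegral_indicator measurableSet_Ioc]
      have : Ioi (0:ℝ) ∩ Ioc 0 1 = Ioc 0 1 := by
        ext x
        constructor
        · exact fun h => h.2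
        · exact fun h => ⟨h.1, h⟩
      rw [this, ← intervalIntegral.integral_of_le zero_le_one, intervalIntegral.integral_const_mul,
        integral_pow]
      norm_num
      ring
    have e2 : ∫ τ in Ioi (0:ℝ), (Ioi T).indicator (fun τ : ℝ => C0 * Real.exp (-(β * τ))) τ
        = C0 * (Real.exp (-(β * T)) / β) := by
      rw [setIntegral_indicator measurableSet_Ioi]
      have : Ioi (0:ℝ) ∩ Ioi T = Ioi T := by
        ext x; simp
        intro h; linarith
      rw [this, integral_const_mul, iEv hβ]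
    rw [e1, e2] at h1
    refine le_trans ?_ h1
    have h2 : c0 / 24 ≤ c0 / 12 - C0 * (Real.exp (-(β * T)) / β) := by linarith
    have h3 := mul_le_mul_of_nonneg_left h2 (mul_pos hK1 hK2).le
    refine le_trans ?_ h3
    have h4 := mul_le_mul_of_nonneg_right hKl (show 0 ≤ c0 / 24 by positivity)
    refine le_trans (le_of_eq ?_) h4
    ring
  · -- upper bound
    have h1 : ∫ τ in Ioi (0:ℝ), Kit τ (κ * r) * Kit τ (κ * r') * m τ
        ≤ ∫ τ in Ioi (0:ℝ), K1 * K2 * (C0 * Real.exp (-(β * τ))) :=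
      setIntegral_mono_on hI hgI measurableSet_Ioi fun τ hτ => le_trans (le_abs_self _) (hbd τ hτ)
    rw [integral_const_mul, integral_const_mul, iEv hβ] at h1
    refine h1.trans ?_
    rw [mul_zero, neg_zero, Real.exp_zero]
    have h4 := mul_le_mul_of_nonneg_right hKu (show 0 ≤ C0 * (1 / β) by positivity)
    refine h4.trans (le_of_eq ?_)
    ring

end Pool.Agent.XQ.K4.H50
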